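import Pool.Graph.R_seed8.H654R3.CremThm
import Pool.Graph.R_seed8.H654R3.CremQuery

/-!
The block estimate and the estimate for fixed `N` with a constant loss per block (adapted from
`CremBlock`, `CremLim` of the library).
-/

set_option autoImplicit false

namespace Pool.Agent.H13.CQ

open MeasureTheory ProbabilityTheory Set
open scoped ENNReal NNReal
open Pool.Agent.H654R3.Crem

section block
variable {N : ℕ} (alg : Algorithm N) (n : ℕ)
variable {Ω : Type*} [mΩ : MeasurableSpace Ω] {P : Measure Ω} [IsProbabilityMeasure P]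
  {ξ : List Bool → Ω → ℝ} {U : ℕ → Ω → ℝ}

/-- one macro-block of blocks `k0, ..., k1 - 1`, with a loss `exp (-2 ρ)` per block -/
lemma block_prob_sharp (hξ : ∀ v, Measurable (ξ v)) (hU : ∀ n, Measurable (U n))
    (hind : iIndepFun (fun i : List Bool ⊕ ℕ => (Sum.elim ξ U i : Ω → ℝ)) P)
    (V : ℕ → ℝ≥0) (hlaw : ∀ w : List Bool, w ≠ [] → w.length ≤ N →
      P.map (ξ w) = gaussianReal 0 (V w.length))
    {L : ℕ} (hL : 2 ≤ L) {p1 : ℝ} (hp0 : 0 < p1)
    (hp : ∀ r : ℕ, 2 ≤ r → ∀ v : ℝ≥0, (v:ℝ) ≤ r * Real.log 4 →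
      ENNReal.ofReal (Real.exp (v / 2 - r * Real.log 2)) *
        gaussianReal v v (Set.Iio (r * Real.log 4 + Real.sqrt r)) ≤ ENNReal.ofReal p1)
    {k0 k1 : ℕ} (hk : k0 ≤ k1) (hk1 : (k1 - 1) * L ≤ N)
    {h : ℝ} (hh : 0 < h) (hV : ∀ i, lv N L k0 < i → i ≤ lv N L k1 → (V i : ℝ) ≤ h)
    {x σ ρ : ℝ} (hx0 : 0 < x) (hx1 : x ≤ 1) (hσ0 : 0 < σ) (hσ1 : σ < 1) (hρ0 : 0 < ρ)
    (hkey : (2 / x) ^ σ * (Real.exp (-√(L:ℝ)) ^ σ + p1 ^ (1 - σ)) ≤ Real.exp (-2 * ρ)) :
    P {ω | ∃ v : List Bool, v.length = lv N L k1 ∧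
        Vis n (query alg (X (fun v => ξ v ω)) (fun m => U m ω)) v ∧
        -(ρ * ((k1:ℝ) - k0)) ≤
          -(σ * x) * tc n (lv N L) k0 k1 v (query alg (X (fun v => ξ v ω)) (fun m => U m ω)) +
          (1 - σ) * (√(Real.log 4 / h) * (X (fun v => ξ v ω) v -
            X (fun v => ξ v ω) (v.take (lv N L k0))) -
            ((lv N L k1:ℝ) - lv N L k0) * Real.log 4)} ≤
      ENNReal.ofReal (n * (2 / x) * Real.exp (2 * ρ) * Real.exp (-(ρ * ((k1:ℝ) - k0)))) := by
  have hL0 : (0:ℝ) < L := by exact_mod_cast (by omega : 0 < L)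
  have hL2 : (2:ℝ) ≤ L := by exact_mod_cast hL
  have hlog4 : 0 < Real.log 4 := Real.log_pos (by norm_num)
  set R : ℝ≥0∞ := ENNReal.ofReal (Real.exp (-(Real.sqrt L))) ^ σ + (ENNReal.ofReal p1) ^ (1 - σ)
    with hR
  have h2x : 1 ≤ 2 / x := by
    rw [le_div_iff₀ hx0]; linarith
  have hlevN : ∀ k, lv N L k ≤ N := fun k => min_le_right _ _
  have hρi : ∀ i, k0 ≤ i → i < k1 → ∀ u ∈ wd (lv N L i), ∫⁻ ω,
      (Wt (fun e ω => gg (√(Real.log 4 / h)) u e (cfg ξ U ω))
      (lv N L (i+1) - lv N L i) ω) ^ (1 - σ) ∂P ≤ (if i + 1 < k1 then R else 1) := by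
    intro i hi0 hi1 u hu
    set r := lv N L (i+1) - lv N L i with hr
    have hmono := lv_mono N L (Nat.le_succ i)
    rw [Nat.succ_eq_add_one] at hmono
    have hlr : lv N L i + r ≤ N := by
      have := hlevN (i+1); omega
    set v : ℝ≥0 := (.mk ((√(Real.log 4 / h)) ^ 2) (sq_nonneg _) *
      ∑ j ∈ Finset.range r, V (lv N L i + (j + 1))) with hv
    have hlawe : ∀ e ∈ wd r, P.map (fun ω => gg (√(Real.log 4 / h)) u e (cfg ξ U ω)) =
        gaussianReal 0 v := fun e he =>
      block_laws (N := N) hξ hU hind V hlaw _ (lv N L i) r hlr u hu e he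
    have hgm : ∀ e ∈ wd r, Measurable (fun ω => gg (√(Real.log 4 / h)) u e (cfg ξ U ω)) :=
      fun e _ => (measurable_gg _ u e).comp (measurable_cfg hξ hU)
    have hvb : (v:ℝ) ≤ r * Real.log 4 := by
      have h1 : (v:ℝ) = (Real.log 4 / h) * ∑ j ∈ Finset.range r, (V (lv N L i + (j + 1)) : ℝ) := by
        rw [hv]
        push_cast
        congr 1
        exact Real.sq_sqrt (by positivity)
      have h2 : ∑ j ∈ Finset.range r, (V (lv N L i + (j + 1)) : ℝ) ≤ r * h := by
        calc _ ≤ ∑ j ∈ Finset.range r, h := by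
              apply Finset.sum_le_sum
              intro j hj
              rw [Finset.mem_range] at hj
              apply hV
              · have := lv_mono N L hi0
                omega
              · have := lv_mono N L (show i + 1 ≤ k1 by omega)
                omega
          _ = r * h := by simp
      rw [h1]
      calc _ ≤ (Real.log 4 / h) * (r * h) := by gcongr
        _ = _ := by field_simp
    split_ifs with hik
    · have hiL : (i + 1) * L ≤ N :=
        le_trans (Nat.mul_le_mul_right L (by omega : i + 1 ≤ k1 - 1)) hk1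
      have hrL : r = L := by
        rw [hr]
        unfold lv
        rw [min_eq_left hiL, min_eq_left (le_trans (Nat.mul_le_mul_right L (by omega)) hiL),
          Nat.add_mul]
        omega
      have h3 := lint_Wt_rpow_le (hp r (by omega) v hvb) hgm hlawe hvb
        (by linarith : (0:ℝ) ≤ 1 - σ) (by linarith)
      rw [hR]
      have h4 : (1 - (1 - σ)) = σ := by ring
      rw [h4, hrL] at h3
      rw [hrL]
      exact h3
    · exact lint_Wt_rpow_le_one hgm hlawe hvb (by linarith) (by linarith)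
  have hmain := pot_bound alg n (lv N L) k0 (√(Real.log 4 / h)) (1 - σ) x hξ hU hind
    (lv_mono N L) (by linarith) (by linarith) hx0 hx1 (fun i => if i + 1 < k1 then R else 1)
    hk hρi (ρ * ((k1:ℝ) - k0))
  have h4 : (1 - (1 - σ)) = σ := by ring
  rw [h4] at hmain
  refine hmain.trans ?_
  -- the numeric bound
  have hfac : (ENNReal.ofReal (2 / x)) ^ σ * R ≤ ENNReal.ofReal (Real.exp (-2 * ρ)) := by
    rw [hR, ENNReal.ofReal_rpow_of_pos (by positivity), ENNReal.ofReal_rpow_of_pos (by positivity),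
      ENNReal.ofReal_rpow_of_pos hp0, ← ENNReal.ofReal_add (by positivity) (by positivity),
      ← ENNReal.ofReal_mul (by positivity)]
    exact ENNReal.ofReal_le_ofReal hkey
  have hlast : (ENNReal.ofReal (2 / x)) ^ σ ≤ ENNReal.ofReal (2 / x) := by
    rw [ENNReal.ofReal_rpow_of_pos (by positivity)]
    apply ENNReal.ofReal_le_ofReal
    exact Real.rpow_le_self_of_one_le h2x hσ1.le
  have hprod : ∏ i ∈ Finset.Ico k0 k1, ((ENNReal.ofReal (2 / x)) ^ σ *
      (if i + 1 < k1 then R else 1)) ≤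
      ENNReal.ofReal ((2 / x) * Real.exp (2 * ρ) *
        Real.exp (-(2 * ρ * ((k1:ℝ) - k0)))) := by
    rcases Nat.eq_or_lt_of_le hk with h0 | h0
    · subst h0
      simp only [Finset.Ico_self, Finset.prod_empty, sub_self, mul_zero, neg_zero, Real.exp_zero,
        mul_one]
      rw [← ENNReal.ofReal_one]
      apply ENNReal.ofReal_le_ofReal
      have : 1 ≤ Real.exp (2 * ρ) := Real.one_le_exp (by positivity)
      nlinarith
    · obtain ⟨k, rfl⟩ : ∃ k, k1 = k + 1 := ⟨k1 - 1, by omega⟩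
      rw [Finset.prod_Ico_succ_top (by omega)]
      simp only [lt_irrefl, if_false, mul_one]
      have h5 : ∏ i ∈ Finset.Ico k0 k, ((ENNReal.ofReal (2 / x)) ^ σ *
          (if i + 1 < k + 1 then R else 1)) ≤
          ∏ i ∈ Finset.Ico k0 k, ENNReal.ofReal (Real.exp (-2 * ρ)) := by
        apply Finset.prod_le_prod' 
        intro i hi
        rw [Finset.mem_Ico] at hi
        rw [if_pos (by omega)]
        exact hfac
      rw [Finset.prod_const, Nat.card_Ico, ← ENNReal.ofReal_pow (by positivity)] at h5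
      calc _ ≤ ENNReal.ofReal (Real.exp (-2 * ρ) ^ (k - k0)) * ENNReal.ofReal (2 / x) :=
            mul_le_mul' h5 hlast
        _ = _ := by
            rw [← ENNReal.ofReal_mul (by positivity)]
            congr 1
            rw [← Real.exp_nat_mul, mul_comm, mul_assoc, ← Real.exp_add]
            congr 2
            rw [Nat.cast_sub (by omega)]
            push_cast
            ring
  calc _ ≤ ENNReal.ofReal (Real.exp (ρ * ((k1:ℝ) - k0))) * (n *
        ENNReal.ofReal ((2 / x) * Real.exp (2 * ρ) *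
        Real.exp (-(2 * ρ * ((k1:ℝ) - k0))))) := by gcongr
    _ = _ := by
      rw [← ENNReal.ofReal_natCast, ← ENNReal.ofReal_mul (by positivity),
        ← ENNReal.ofReal_mul (by positivity)]
      congr 1
      have : Real.exp (-(ρ * ((k1:ℝ) - k0))) = Real.exp (ρ * ((k1:ℝ) - k0)) *
          Real.exp (-(2 * ρ * ((k1:ℝ) - k0))) := by
        rw [← Real.exp_add]; congr 1; ring
      rw [this]; ring

lemma fixedN_sharp (hξ : ∀ v, Measurable (ξ v)) (hU : ∀ n, Measurable (U n))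
    (hind : iIndepFun (fun i : List Bool ⊕ ℕ => (Sum.elim ξ U i : Ω → ℝ)) P)
    {a : ℝ → ℝ} (hint : IntervalIntegrable a volume 0 1) (hone : ∫ t in (0:ℝ)..1, a t = 1)
    (hlaw : ∀ w : List Bool, w ≠ [] → w.length ≤ N →
      P.map (ξ w) = gaussianReal 0 (incVar a N w.length))
    {L M : ℕ} (hL : 2 ≤ L) (hM : 0 < M) (hN : L * M ≤ N) {p1 : ℝ} (hp0 : 0 < p1)
    (hp : ∀ r : ℕ, 2 ≤ r → ∀ v : ℝ≥0, (v:ℝ) ≤ r * Real.log 4 →
      ENNReal.ofReal (Real.exp (v / 2 - r * Real.log 2)) *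
        gaussianReal v v (Set.Iio (r * Real.log 4 + Real.sqrt r)) ≤ ENNReal.ofReal p1)
    {h : ℕ → ℝ} (hpos : ∀ j, 0 < h j) {H : ℝ} (hH : ∀ j, h j ≤ H)
    (hwin : ∀ j : ℕ, ∀ t ∈ Icc (0:ℝ) 1, |t - j / M| ≤ 3 / M → a t ≤ h j)
    {J : ℝ} (hJ : ∑ j ∈ Finset.range M, √(h j) ≤ M * J)
    {b x σ ρ : ℝ} (hb : 0 < b) (hx0 : 0 < x) (hx1 : x ≤ 1) (hσ0 : 0 < σ) (hσ1 : σ < 1)
    (hρ0 : 0 < ρ) (hσx : σ * x = ρ * (b / L))
    (hkey : (2 / x) ^ σ * (Real.exp (-√(L:ℝ)) ^ σ + p1 ^ (1 - σ)) ≤ Real.exp (-2 * ρ))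
    {y : ℝ} (hy : √(Real.log 4) * ((N + 2 * L * M) * J) +
      (ρ / ((1 - σ) * √(Real.log 4) * L)) * (b * √H * n - N / √H) < y) :
    P {ω | ∃ t < n, (query alg (X (fun v => ξ v ω)) (fun m => U m ω) t).length = N ∧
      y ≤ X (fun v => ξ v ω) (query alg (X (fun v => ξ v ω)) (fun m => U m ω) t)} ≤
      M * ENNReal.ofReal (n * (2 / x) * Real.exp (2 * ρ) *
        Real.exp (-(ρ * ((N:ℝ) / (L * M) - 1)))) := by
  have hL0 : 0 < L := by omega
  have hLr : (0:ℝ) < L := by exact_mod_cast hL0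
  have hMr : (0:ℝ) < M := by exact_mod_cast hM
  have hNLM : (L:ℝ) * M ≤ N := by exact_mod_cast hN
  have hN' : (0:ℝ) < N := lt_of_lt_of_le (by positivity) hNLM
  have hH0 : 0 < H := lt_of_lt_of_le (hpos 0) (hH 0)
  have hsH : 0 < √H := Real.sqrt_pos.2 hH0
  have hlog4 : 0 < Real.log 4 := Real.log_pos (by norm_num)
  have hc0 : 0 < √(Real.log 4) := Real.sqrt_pos.2 hlog4
  set kk := kx N L M with hkk
  set E : ℕ → Set Ω := fun j => {ω | ∃ v : List Bool, v.length = lv N L (kk (j+1)) ∧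
        Vis n (query alg (X (fun v => ξ v ω)) (fun m => U m ω)) v ∧
        -(ρ * ((kk (j+1):ℝ) - kk j)) ≤
          -(σ * x) * tc n (lv N L) (kk j) (kk (j+1)) v
            (query alg (X (fun v => ξ v ω)) (fun m => U m ω)) +
          (1 - σ) * (√(Real.log 4 / h j) * (X (fun v => ξ v ω) v -
            X (fun v => ξ v ω) (v.take (lv N L (kk j)))) -
            ((lv N L (kk (j+1)):ℝ) - lv N L (kk j)) * Real.log 4)} with hE
  have hEp : ∀ j < M, P (E j) ≤ ENNReal.ofReal (n * (2 / x) * Real.exp (2 * ρ) *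
        Real.exp (-(ρ * ((N:ℝ) / (L * M) - 1)))) := by
    intro j hj
    have hk1 : (kk (j+1) - 1) * L ≤ N := by
      have h1 : kk (j+1) ≤ N / L + 1 := by
        rw [← kx_top N L hM]
        exact kx_mono N L M (by omega)
      calc (kk (j+1) - 1) * L ≤ (N / L) * L := Nat.mul_le_mul_right L (Nat.sub_le_of_le_add h1)
        _ ≤ N := Nat.div_mul_le_self N L
    have h1 := block_prob_sharp alg n hξ hU hind (incVar a N) hlaw hL hp0 hp
      (kx_mono N L M (Nat.le_succ j)) hk1 (hpos j)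
      (fun i hi1 hi2 => incVar_le hint hL0 hM hN hpos hwin hj i hi1 hi2) hx0 hx1 hσ0 hσ1 hρ0 hkey
    refine h1.trans (ENNReal.ofReal_le_ofReal ?_)
    have h2 := diff_ge (N := N) hL0 hM j
    have h3 : Real.exp (-(ρ * ((kk (j+1):ℝ) - kk j))) ≤
        Real.exp (-(ρ * ((N:ℝ) / (L * M) - 1))) := by
      apply Real.exp_le_exp.2
      have := mul_le_mul_of_nonneg_left h2 hρ0.le
      linarith
    exact mul_le_mul_of_nonneg_left h3 (by positivity)
  have hsub : {ω | ∃ t < n, (query alg (X (fun v => ξ v ω)) (fun m => U m ω) t).length = N ∧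
      y ≤ X (fun v => ξ v ω) (query alg (X (fun v => ξ v ω)) (fun m => U m ω) t)} ⊆
      ⋃ j ∈ Finset.range M, E j := by
    rintro ω ⟨t, ht, hlen, hyX⟩
    by_contra hcon
    simp only [Set.mem_iUnion, Finset.mem_range, not_exists] at hcon
    set q := query alg (X (fun v => ξ v ω)) (fun m => U m ω) with hq
    set X0 := X (fun v => ξ v ω) with hX0
    have hs1 : 0 < 1 - σ := by linarith
    obtain ⟨σ', hσ'⟩ : ∃ σ' : ℝ, σ' = ρ / (1 - σ + ρ) := ⟨_, rfl⟩
    have hσ'0 : 0 < σ' := by rw [hσ']; positivity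
    have hσ'1 : σ' < 1 := by
      rw [hσ', div_lt_one (by positivity)]
      linarith
    have h1σ' : 1 - σ' = (1 - σ) / (1 - σ + ρ) := by
      have hne : 1 - σ + ρ ≠ 0 := by positivity
      rw [hσ', eq_div_iff hne, sub_mul, div_mul_cancel₀ _ hne]
      ring
    have rescale : ∀ {d tt z : ℝ}, -(σ' * d) ≤ -(σ' * (b / L)) * tt + (1 - σ') * z →
        -(ρ * d) ≤ -(σ * x) * tt + (1 - σ) * z := by
      intro d tt z hz
      have hpos' : 0 < 1 - σ + ρ := by linarith
      have h6 := mul_le_mul_of_nonneg_left hz hpos'.le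
      have h7 : (1 - σ + ρ) * σ' = ρ := by rw [hσ']; field_simp
      have h8 : (1 - σ + ρ) * (1 - σ') = 1 - σ := by rw [h1σ']; field_simp
      have e1 : (1 - σ + ρ) * -(σ' * d) = -(((1 - σ + ρ) * σ') * d) := by ring
      have e2 : (1 - σ + ρ) * (-(σ' * (b / L)) * tt + (1 - σ') * z) =
          -(((1 - σ + ρ) * σ') * (b / L)) * tt + ((1 - σ + ρ) * (1 - σ')) * z := by ring
      rw [e1, e2, h7, h8, ← hσx] at h6
      exact h6
    have hκeq : σ' / ((1 - σ') * √(Real.log 4) * L) = ρ / ((1 - σ) * √(Real.log 4) * L) := by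
      rw [h1σ', hσ']
      field_simp
    have hdet := det_bound (N := N) (n := n) (L := L) (M := M) hL0 q X0 (by simp [hX0, X]) kk
      (kx_mono N L M) (kx_zero N L M) (by rw [hkk, kx_top N L hM, lv_top N hL0]) h hpos hH
      hb hσ'0 hσ'1 (q t) hlen (by
        intro j hj hineq
        apply hcon j hj
        have hineq := rescale hineq
        refine ⟨(q t).take (lv N L (kk (j+1))), ?_, ⟨t, ht, List.take_prefix _ _⟩, hineq⟩
        rw [List.length_take, hlen]
        exact min_eq_left (min_le_right _ _))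
    have hSl := S_lower hint hone hL0 hM hN hpos hH hwin
    have hSu := S_upper (N := N) hL0 hM hJ
    set S := ∑ j ∈ Finset.range M,
      √(h j) * ((lv N L (kk (j+1)) : ℝ) - lv N L (kk j)) with hS
    have hSl' : N / √H ≤ S := by
      rw [div_le_iff₀ hsH]; linarith
    have hκ : 0 < (ρ / ((1 - σ) * √(Real.log 4) * L)) := by positivity
    rw [hκeq] at hdet
    have h5 : X0 (q t) ≤ √(Real.log 4) * ((N + 2 * L * M) * J) +
      (ρ / ((1 - σ) * √(Real.log 4) * L)) * (b * √H * n - N / √H) := by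
      refine hdet.trans ?_
      gcongr
    exact absurd hyX (not_le.2 (lt_of_le_of_lt h5 hy))
  calc _ ≤ P (⋃ j ∈ Finset.range M, E j) := measure_mono hsub
    _ ≤ ∑ j ∈ Finset.range M, P (E j) := measure_biUnion_finset_le _ _
    _ ≤ ∑ j ∈ Finset.range M, ENNReal.ofReal (n * (2 / x) * Real.exp (2 * ρ) *
        Real.exp (-(ρ * ((N:ℝ) / (L * M) - 1)))) :=
        Finset.sum_le_sum (fun j hj => hEp j (Finset.mem_range.1 hj))
    _ = _ := by
        rw [Finset.sum_const, Finset.card_range, nsmul_eq_mul]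

end block

end Pool.Agent.H13.CQ
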