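import Pool.Agent.H13.CQ.Main

/-!
Finite size form for the branching random walk (`a = 1`): all distances `δ ≥ K N ^ (-2 / 3)`.
-/

set_option autoImplicit false

namespace Pool.Agent.H13.CQ

open MeasureTheory ProbabilityTheory Set Filter Topology
open scoped ENNReal NNReal
open Pool.Agent.H654R3.Crem

section one
variable {N : ℕ} (alg : Algorithm N) (n : ℕ)
variable {Ω : Type*} [mΩ : MeasurableSpace Ω] {P : Measure Ω} [IsProbabilityMeasure P]
  {ξ : List Bool → Ω → ℝ} {U : ℕ → Ω → ℝ}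

/-- one macro-block, increments of variance at most one -/
lemma fixedN_one (hξ : ∀ v, Measurable (ξ v)) (hU : ∀ n, Measurable (U n))
    (hind : iIndepFun (fun i : List Bool ⊕ ℕ => (Sum.elim ξ U i : Ω → ℝ)) P)
    (V : ℕ → ℝ≥0) (hV : ∀ i, 0 < i → i ≤ N → (V i : ℝ) ≤ 1)
    (hlaw : ∀ w : List Bool, w ≠ [] → w.length ≤ N → P.map (ξ w) = gaussianReal 0 (V w.length))
    {L : ℕ} (hL : 2 ≤ L) {p1 : ℝ} (hp0 : 0 < p1)
    (hp : ∀ r : ℕ, 2 ≤ r → ∀ v : ℝ≥0, (v:ℝ) ≤ r * Real.log 4 →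
      ENNReal.ofReal (Real.exp (v / 2 - r * Real.log 2)) *
        gaussianReal v v (Set.Iio (r * Real.log 4 + Real.sqrt r)) ≤ ENNReal.ofReal p1)
    {b x σ ρ : ℝ} (hb : 0 < b) (hx0 : 0 < x) (hx1 : x ≤ 1) (hσ0 : 0 < σ) (hσ1 : σ < 1)
    (hρ0 : 0 < ρ) (hσx : σ * x = ρ * (b / L))
    (hkey : (2 / x) ^ σ * (Real.exp (-√(L:ℝ)) ^ σ + p1 ^ (1 - σ)) ≤ Real.exp (-2 * ρ))
    {y : ℝ} (hy : √(Real.log 4) * N +
      (ρ / ((1 - σ) * √(Real.log 4) * L)) * (b * n - N) < y) :
    P {ω | ∃ t < n, (query alg (X (fun v => ξ v ω)) (fun m => U m ω) t).length = N ∧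
      y ≤ X (fun v => ξ v ω) (query alg (X (fun v => ξ v ω)) (fun m => U m ω) t)} ≤
      ENNReal.ofReal (n * (2 / x) * Real.exp (2 * ρ) * Real.exp (-(ρ * ((N:ℝ) / L)))) := by
  have hL0 : 0 < L := by omega
  have hLr : (0:ℝ) < L := by exact_mod_cast hL0
  have hlog4 : 0 < Real.log 4 := Real.log_pos (by norm_num)
  have hc0 : 0 < √(Real.log 4) := Real.sqrt_pos.2 hlog4
  obtain ⟨kk, hkk⟩ : ∃ kk : ℕ → ℕ, kk = fun j => j * (N / L + 1) := ⟨_, rfl⟩
  have hk0 : kk 0 = 0 := by rw [hkk]; simp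
  have hk1 : kk 1 = N / L + 1 := by rw [hkk]; simp
  have hkm : Monotone kk := by
    rw [hkk]
    intro i j h
    exact Nat.mul_le_mul_right _ h
  set E : Set Ω := {ω | ∃ v : List Bool, v.length = lv N L (kk 1) ∧
        Vis n (query alg (X (fun v => ξ v ω)) (fun m => U m ω)) v ∧
        -(ρ * ((kk 1:ℝ) - kk 0)) ≤
          -(σ * x) * tc n (lv N L) (kk 0) (kk 1) v
            (query alg (X (fun v => ξ v ω)) (fun m => U m ω)) +
          (1 - σ) * (√(Real.log 4 / 1) * (X (fun v => ξ v ω) v -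
            X (fun v => ξ v ω) (v.take (lv N L (kk 0)))) -
            ((lv N L (kk 1):ℝ) - lv N L (kk 0)) * Real.log 4)} with hE
  have hEp : P E ≤ ENNReal.ofReal (n * (2 / x) * Real.exp (2 * ρ) *
        Real.exp (-(ρ * ((N:ℝ) / L)))) := by
    have hk1' : (kk 1 - 1) * L ≤ N := by
      rw [hk1, Nat.add_sub_cancel]
      exact Nat.div_mul_le_self N L
    have h1 := block_prob_sharp alg n hξ hU hind V hlaw hL hp0 hp
      (hkm (Nat.zero_le 1)) hk1' (h := 1) one_pos
      (fun i hi1 hi2 => hV i (by omega) (hi2.trans (min_le_right _ _))) hx0 hx1 hσ0 hσ1 hρ0 hkey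
    refine h1.trans (ENNReal.ofReal_le_ofReal ?_)
    have h2 : (N:ℝ) / L ≤ (kk 1:ℝ) - kk 0 := by
      rw [hk0, hk1]
      have h4 := m_real_ge N hL0
      rw [div_le_iff₀ hLr]
      push_cast at h4 ⊢
      linarith
    have h3 : Real.exp (-(ρ * ((kk 1:ℝ) - kk 0))) ≤ Real.exp (-(ρ * ((N:ℝ) / L))) := by
      apply Real.exp_le_exp.2
      have := mul_le_mul_of_nonneg_left h2 hρ0.le
      linarith
    exact mul_le_mul_of_nonneg_left h3 (by positivity)
  refine le_trans (measure_mono ?_) hEp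
  rintro ω ⟨t, ht, hlen, hyX⟩
  by_contra hcon
  set q := query alg (X (fun v => ξ v ω)) (fun m => U m ω) with hq
  set X0 := X (fun v => ξ v ω) with hX0
  have hs1 : 0 < 1 - σ := by linarith
  obtain ⟨σ', hσ'⟩ : ∃ σ' : ℝ, σ' = ρ / (1 - σ + ρ) := ⟨_, rfl⟩
  have hσ'0 : 0 < σ' := by rw [hσ']; positivity
  have hσ'1 : σ' < 1 := by
    rw [hσ', div_lt_one (by positivity)]
    linarith
  have hne : 1 - σ + ρ ≠ 0 := by positivity
  have h1σ' : 1 - σ' = (1 - σ) / (1 - σ + ρ) := by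
    rw [hσ', eq_div_iff hne, sub_mul, div_mul_cancel₀ _ hne]
    ring
  have rescale : ∀ {d tt z : ℝ}, -(σ' * d) ≤ -(σ' * (b / L)) * tt + (1 - σ') * z →
      -(ρ * d) ≤ -(σ * x) * tt + (1 - σ) * z := by
    intro d tt z hz
    have hpos' : 0 < 1 - σ + ρ := by linarith
    have h6 := mul_le_mul_of_nonneg_left hz hpos'.le
    have h7 : (1 - σ + ρ) * σ' = ρ := by rw [hσ']; field_simp
    have h8 : (1 - σ + ρ) * (1 - σ') = 1 - σ := by rw [h1σ']; field_simp
    have e1 : (1 - σ + ρ) * -(σ' * d) = -(((1 - σ + ρ) * σ') * d) := by ring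
    have e2 : (1 - σ + ρ) * (-(σ' * (b / L)) * tt + (1 - σ') * z) =
        -(((1 - σ + ρ) * σ') * (b / L)) * tt + ((1 - σ + ρ) * (1 - σ')) * z := by ring
    rw [e1, e2, h7, h8, ← hσx] at h6
    exact h6
  have hκeq : σ' / ((1 - σ') * √(Real.log 4) * L) = ρ / ((1 - σ) * √(Real.log 4) * L) := by
    rw [h1σ', hσ']
    field_simp
  have hdet := det_bound (N := N) (n := n) (L := L) (M := 1) hL0 q X0 (by simp [hX0, X]) kk
    hkm hk0 (by rw [hk1, lv_top N hL0]) (fun _ => 1) (fun _ => one_pos) (H := 1) (fun _ => le_rfl)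
    hb hσ'0 hσ'1 (q t) hlen (by
      intro j hj hineq
      have hj0 : j = 0 := by omega
      subst hj0
      apply hcon
      have hineq := rescale hineq
      refine ⟨(q t).take (lv N L (kk 1)), ?_, ⟨t, ht, List.take_prefix _ _⟩, hineq⟩
      rw [List.length_take, hlen]
      exact min_eq_left (min_le_right _ _))
  have hS : ∑ j ∈ Finset.range 1, √((fun _ : ℕ => (1:ℝ)) j) *
      ((lv N L (kk (j+1)) : ℝ) - lv N L (kk j)) = N := by
    rw [Finset.sum_range_one]
    have h9 : lv N L 0 = 0 := by unfold lv; simp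
    rw [zero_add, hk1, lv_top N hL0, hk0, h9]
    simp
  rw [hS, hκeq] at hdet
  have h5 : X0 (q t) ≤ √(Real.log 4) * N +
    (ρ / ((1 - σ) * √(Real.log 4) * L)) * (b * n - N) := by
    refine hdet.trans (le_of_eq ?_)
    rw [Real.sqrt_one, mul_one]
  exact absurd hyX (not_le.2 (lt_of_le_of_lt h5 hy))

end one

universe u

theorem brw_sharp : ∃ c K δ₀ : ℝ, 0 < c ∧ 0 < K ∧ 0 < δ₀ ∧ ∀ N : ℕ, 0 < N →
    ∀ δ : ℝ, K * (N:ℝ) ^ (-(2 / 3) : ℝ) ≤ δ → δ ≤ δ₀ →
    ∀ (Ω : Type u) [MeasurableSpace Ω] (P : Measure Ω) [IsProbabilityMeasure P]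
    (ξ : List Bool → Ω → ℝ) (U : ℕ → Ω → ℝ), (∀ v, Measurable (ξ v)) → (∀ n, Measurable (U n)) →
    (iIndepFun (fun i : List Bool ⊕ ℕ => (Sum.elim ξ U i : Ω → ℝ)) P) →
    (∀ w : List Bool, w ≠ [] → w.length ≤ N →
      P.map (ξ w) = gaussianReal 0 (incVar (fun _ => 1) N w.length)) →
    ∀ (alg : Algorithm N),
    P {ω | ∃ t : ℕ, (t:ℝ) + 1 ≤ Real.exp (c * δ ^ (-(1 / 2) : ℝ)) * N ∧
      (query alg (X (fun v => ξ v ω)) (fun m => U m ω) t).length = N ∧
      (√(2 * Real.log 2) - δ) * N ≤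
        X (fun v => ξ v ω) (query alg (X (fun v => ξ v ω)) (fun m => U m ω) t)} ≤
      ENNReal.ofReal (Real.exp (-(δ * N))) := by
  have hlog4 : 0 < Real.log 4 := Real.log_pos (by norm_num)
  have hlog42 : Real.log 4 = 2 * Real.log 2 := by
    rw [show (4:ℝ) = 2 ^ 2 by norm_num, Real.log_pow]; norm_num
  rw [← hlog42]
  obtain ⟨cc, hcc⟩ : ∃ cc : ℝ, cc = √(Real.log 4) := ⟨_, rfl⟩
  rw [← hcc]
  have hcc1 : 1 ≤ cc := by
    rw [hcc]
    apply Real.le_sqrt_of_sq_le
    rw [hlog42]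
    have := Real.log_two_gt_d9
    linarith
  have hcc0 : 0 < cc := by linarith
  obtain ⟨p1, hp0, hp1, hp⟩ := exists_p1
  obtain ⟨c1, ρ, hc10, hρ0, hkeyq⟩ := exists_sharp hp0 hp1
  have hl2 : 0 < Real.log 2 := Real.log_pos (by norm_num)
  obtain ⟨KK, hKK⟩ : ∃ KK : ℝ, KK = 1 + Real.log 2 := ⟨_, rfl⟩
  have hKK1 : 1 ≤ KK := by rw [hKK]; linarith
  obtain ⟨c2, hc2⟩ : ∃ c2 : ℝ, c2 = c1 / (4 * cc * KK ^ 2) := ⟨_, rfl⟩
  have hc20 : 0 < c2 := by rw [hc2]; positivity
  refine ⟨c2 ^ (1 / 2 : ℝ) / 2, 5 + 2 * ρ + 4 * c2, c2 / 4, by positivity, by positivity,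
    by positivity, ?_⟩
  intro N hN δ hδK hδ1 Ω _ P _ ξ U hξ hU hind hlaw alg
  have hN' : (0:ℝ) < N := by exact_mod_cast hN
  have hN1 : (1:ℝ) ≤ N := by exact_mod_cast hN
  obtain ⟨K, hK⟩ : ∃ K : ℝ, K = 5 + 2 * ρ + 4 * c2 := ⟨_, rfl⟩
  rw [← hK] at hδK
  have hK1 : 1 ≤ K := by rw [hK]; linarith
  have hδ0 : 0 < δ := lt_of_lt_of_le (by positivity) hδK
  obtain ⟨u, hu⟩ : ∃ u : ℝ, u = (N:ℝ) ^ (1 / 3 : ℝ) := ⟨_, rfl⟩
  have hu1 : 1 ≤ u := by rw [hu]; exact Real.one_le_rpow hN1 (by norm_num)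
  have hu0 : 0 < u := by linarith
  have hu3 : u ^ 3 = N := by
    rw [hu, ← Real.rpow_natCast, ← Real.rpow_mul hN'.le]
    norm_num
  have hu2 : (N:ℝ) ^ (-(2 / 3) : ℝ) * u ^ 2 = 1 := by
    rw [hu, ← Real.rpow_natCast, ← Real.rpow_mul hN'.le, ← Real.rpow_add hN']
    norm_num
  have hδu : K ≤ δ * u ^ 2 := by
    calc K = K * (N:ℝ) ^ (-(2 / 3) : ℝ) * u ^ 2 := by rw [mul_assoc, hu2, mul_one]
      _ ≤ δ * u ^ 2 := by gcongr
  have hδN : K * u ≤ δ * N := by
    rw [← hu3]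
    calc K * u ≤ (δ * u ^ 2) * u := by gcongr
      _ = δ * u ^ 3 := by ring
  -- the number of queries
  obtain ⟨z, hz⟩ : ∃ z : ℝ, z = (c2 / δ) ^ (1 / 2 : ℝ) := ⟨_, rfl⟩
  have hz0 : 0 ≤ z := by rw [hz]; positivity
  have hz3 : z ^ 2 = c2 / δ := by
    rw [hz, ← Real.rpow_natCast, ← Real.rpow_mul (by positivity)]
    norm_num
  have hz2 : 2 ≤ z := by
    have h8 : (2:ℝ) ^ 2 ≤ z ^ 2 := by
      rw [hz3, le_div_iff₀ hδ0]; linarith
    exact le_of_pow_le_pow_left₀ (by norm_num) hz0 h8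
  have hexp : c2 ^ (1 / 2 : ℝ) / 2 * δ ^ (-(1 / 2) : ℝ) = z / 2 := by
    rw [hz, Real.div_rpow hc20.le hδ0.le, Real.rpow_neg hδ0.le]
    ring
  rw [hexp]
  have hz2N : 2 * z ≤ δ * N := by
    have h1 : (2 * z) ^ 2 ≤ (δ * N) ^ 2 := by
      have h2 : K ^ 3 ≤ (δ * u ^ 2) ^ 3 := pow_le_pow_left₀ (by linarith) hδu 3
      have h3 : (δ * u ^ 2) ^ 3 = δ * (δ * N) ^ 2 := by rw [← hu3]; ring
      have h4 : 4 * c2 ≤ K ^ 3 := by
        have h5 : K ≤ K ^ 3 := le_self_pow₀ hK1 (by norm_num)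
        have h6 : 4 * c2 ≤ K := by rw [hK]; linarith
        linarith
      rw [mul_pow, hz3]
      calc 2 ^ 2 * (c2 / δ) = 4 * c2 / δ := by ring
        _ ≤ δ * (δ * N) ^ 2 / δ := by
            apply div_le_div_of_nonneg_right _ hδ0.le
            rw [← h3]
            linarith
        _ = (δ * N) ^ 2 := by field_simp
    exact le_of_sq_le_sq h1 (by positivity)
  obtain ⟨C', hC'⟩ : ∃ C' : ℝ, C' = Real.exp (z - 1) := ⟨_, rfl⟩
  have hC1 : 1 ≤ C' := by rw [hC']; exact Real.one_le_exp (by linarith)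
  have hC0 : 0 < C' := by linarith
  have hCle : Real.exp (z / 2) ≤ C' := by rw [hC']; exact Real.exp_le_exp.2 (by linarith)
  have hCz : C' ≤ Real.exp z := by rw [hC']; exact Real.exp_le_exp.2 (by linarith)
  obtain ⟨b, hb⟩ : ∃ b : ℝ, b = 1 / (2 * C') := ⟨_, rfl⟩
  have hb0 : 0 < b := by rw [hb]; positivity
  have hb1 : b ≤ 1 := by
    rw [hb, div_le_one (by positivity)]
    linarith
  have hbC : b * (2 * C') = 1 := by rw [hb]; field_simp
  have hlogb : 1 + Real.log (1 / b) ≤ KK * z := by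
    have h1 : 1 / b = 2 * C' := by rw [hb, one_div_one_div]
    rw [h1, Real.log_mul (by norm_num) (by positivity), hC', Real.log_exp, hKK]
    nlinarith
  have hlogb0 : 0 < 1 + Real.log (1 / b) := by
    have : 0 ≤ Real.log (1 / b) := Real.log_nonneg (by rw [le_div_iff₀ hb0]; linarith)
    linarith
  obtain ⟨L, σ, x, hL2, hσ0, hσ1, hx0, hx1, hσx, hkey, hσL⟩ := hkeyq b hb0 hb1
  have hL0 : (0:ℝ) < L := by exact_mod_cast (by omega : 0 < L)
  have hs0 : 0 < 1 - σ := by linarith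
  have hρL : 4 * cc * δ ≤ ρ / L := by
    refine le_trans ?_ hσL
    have h1 : c1 / (KK * z) ^ 2 ≤ c1 / (1 + Real.log (1 / b)) ^ 2 := by
      apply div_le_div_of_nonneg_left hc10.le (by positivity)
      exact pow_le_pow_left₀ hlogb0.le hlogb 2
    refine le_trans (le_of_eq ?_) h1
    rw [mul_pow, hz3, hc2]
    field_simp
  obtain ⟨κ, hκ⟩ : ∃ κ : ℝ, κ = ρ / ((1 - σ) * cc * L) := ⟨_, rfl⟩
  have hκδ : 4 * δ ≤ κ := by
    have h2 : ρ / L / cc ≤ κ := by
      rw [hκ, div_div]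
      apply div_le_div_of_nonneg_left hρ0.le (by positivity)
      calc (1 - σ) * cc * L = (1 - σ) * (L * cc) := by ring
        _ ≤ 1 * (L * cc) := by gcongr; linarith
        _ = L * cc := one_mul _
    refine le_trans ?_ h2
    rw [le_div_iff₀ hcc0]
    linarith
  obtain ⟨n, hn⟩ : ∃ n : ℕ, n = ⌊C' * N⌋₊ := ⟨_, rfl⟩
  have hnle : (n:ℝ) ≤ C' * N := by rw [hn]; exact Nat.floor_le (by positivity)
  have hbn : b * n ≤ N / 2 := by
    calc b * n ≤ b * (C' * N) := by gcongr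
      _ = (b * (2 * C')) * N / 2 := by ring
      _ = N / 2 := by rw [hbC, one_mul]
  have hy : √(Real.log 4) * N + (ρ / ((1 - σ) * √(Real.log 4) * L)) * (b * n - N) <
      (cc - δ) * N := by
    rw [← hcc, ← hκ]
    have h1 : κ * (b * n - N) ≤ κ * (N / 2 - N) := by
      apply mul_le_mul_of_nonneg_left _ (by linarith)
      linarith
    have h2 : 4 * δ * (N / 2) ≤ κ * (N / 2) := by gcongr
    have h3 : 0 < δ * N := by positivity
    nlinarith
  have hmain := fixedN_one alg n hξ hU hind (incVar (fun _ => 1) N) (by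
      intro i _ _
      unfold incVar
      rw [Real.coe_toNNReal', max_le_iff]
      refine ⟨?_, zero_le_one⟩
      rw [intervalIntegral.integral_const, intervalIntegral.integral_const, smul_eq_mul,
        smul_eq_mul]
      apply le_of_eq
      field_simp
      ring) hlaw hL2 hp0 hp hb0 hx0 hx1 hσ0 hσ1 hρ0 hσx hkey hy
  calc _ ≤ P {ω | ∃ t < n, (query alg (X (fun v => ξ v ω)) (fun m => U m ω) t).length = N
        ∧ (cc - δ) * N ≤
        X (fun v => ξ v ω) (query alg (X (fun v => ξ v ω)) (fun m => U m ω) t)} := by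
        apply measure_mono
        rintro ω ⟨t, ht, h1, h2⟩
        refine ⟨t, ?_, h1, h2⟩
        have : ((t + 1 : ℕ) : ℝ) ≤ C' * N := by
          push_cast
          refine ht.trans ?_
          gcongr
        rw [hn]
        exact Nat.le_floor this
    _ ≤ _ := hmain
    _ ≤ _ := by
      apply ENNReal.ofReal_le_ofReal
      have h2x : 2 / x ≤ C' / δ := by
        have h1 : x = ρ * b / (L * σ) := by
          rw [eq_div_iff (by positivity)]
          calc x * (L * σ) = L * (σ * x) := by ring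
            _ = ρ * b := by rw [hσx]; field_simp
        have h2 : 2 / x = 2 * σ / b / (ρ / L) := by
          rw [h1]
          field_simp
        have h3 : 1 / b = 2 * C' := by rw [hb, one_div_one_div]
        rw [h2]
        calc 2 * σ / b / (ρ / L) ≤ 2 * 1 / b / (4 * cc * δ) := by gcongr
          _ = 2 * (1 / b) / (4 * cc * δ) := by ring
          _ = C' / (cc * δ) := by
              rw [h3]
              field_simp
              ring
          _ ≤ C' / (1 * δ) := by gcongr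
          _ = C' / δ := by rw [one_mul]
      have hexpL : Real.exp (-(ρ * ((N:ℝ) / L))) ≤ Real.exp (-(4 * (δ * N))) := by
        apply Real.exp_le_exp.2
        have h1 : 4 * δ ≤ ρ / L := by
          refine le_trans ?_ hρL
          nlinarith
        have h2 : 4 * δ * N ≤ ρ / L * N := by gcongr
        have h3 : ρ * ((N:ℝ) / L) = ρ / L * N := by ring
        rw [h3]
        linarith
      have hpoly : N / δ * Real.exp (2 * ρ) ≤ Real.exp (2 * (δ * N)) := by
        have h1 : N / δ ≤ u ^ 5 / K := by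
          rw [div_le_div_iff₀ hδ0 (by linarith)]
          calc (N:ℝ) * K ≤ N * (δ * u ^ 2) := by gcongr
            _ = u ^ 5 * δ := by rw [← hu3]; ring
        have h2 : u ^ 5 ≤ 120 * Real.exp (δ * N) := by
          have h3 := Real.pow_div_factorial_le_exp u hu0.le 5
          have h4 : ((Nat.factorial 5 : ℕ) : ℝ) = 120 := by norm_num [Nat.factorial]
          rw [h4, div_le_iff₀ (by norm_num)] at h3
          have h5 : Real.exp u ≤ Real.exp (δ * N) := by
            apply Real.exp_le_exp.2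
            refine le_trans ?_ hδN
            nlinarith
          linarith
        have h6 : 120 * Real.exp (2 * ρ) ≤ Real.exp (δ * N) := by
          have h7 : (120:ℝ) ≤ Real.exp 5 := by
            have h8 : Real.exp 5 = Real.exp 1 ^ 5 := by
              rw [← Real.exp_nat_mul]
              norm_num
            rw [h8]
            have h9 := Real.exp_one_gt_d9
            calc (120:ℝ) ≤ 2.7 ^ 5 := by norm_num
              _ ≤ Real.exp 1 ^ 5 := pow_le_pow_left₀ (by norm_num) (by linarith) 5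
          calc 120 * Real.exp (2 * ρ) ≤ Real.exp 5 * Real.exp (2 * ρ) := by gcongr
            _ = Real.exp (5 + 2 * ρ) := by rw [← Real.exp_add]
            _ ≤ Real.exp (δ * N) := by
                apply Real.exp_le_exp.2
                refine le_trans ?_ hδN
                have : K ≤ K * u := le_mul_of_one_le_right (by linarith) hu1
                refine le_trans ?_ this
                rw [hK]
                linarith
        calc N / δ * Real.exp (2 * ρ) ≤ u ^ 5 / K * Real.exp (2 * ρ) := by gcongr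
          _ ≤ u ^ 5 / 1 * Real.exp (2 * ρ) := by gcongr
          _ = u ^ 5 * Real.exp (2 * ρ) := by rw [div_one]
          _ ≤ (120 * Real.exp (δ * N)) * Real.exp (2 * ρ) := by gcongr
          _ = Real.exp (δ * N) * (120 * Real.exp (2 * ρ)) := by ring
          _ ≤ Real.exp (δ * N) * Real.exp (δ * N) := by gcongr
          _ = Real.exp (2 * (δ * N)) := by rw [← Real.exp_add]; congr 1; ring
      calc (n:ℝ) * (2 / x) * Real.exp (2 * ρ) * Real.exp (-(ρ * ((N:ℝ) / L)))
          ≤ (Real.exp z * N) * (Real.exp z / δ) * Real.exp (2 * ρ) * Real.exp (-(4 * (δ * N))) := by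
            have h1 : (n:ℝ) ≤ Real.exp z * N := hnle.trans (by gcongr)
            have h2 : 2 / x ≤ Real.exp z / δ := h2x.trans (by gcongr)
            gcongr
        _ = Real.exp (2 * z) * (N / δ * Real.exp (2 * ρ)) * Real.exp (-(4 * (δ * N))) := by
            have : Real.exp (2 * z) = Real.exp z * Real.exp z := by
              rw [← Real.exp_add]; congr 1; ring
            rw [this]
            ring
        _ ≤ Real.exp (δ * N) * Real.exp (2 * (δ * N)) * Real.exp (-(4 * (δ * N))) := by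
            gcongr
        _ = Real.exp (-(δ * N)) := by
            rw [← Real.exp_add, ← Real.exp_add]
            congr 1
            ring

end Pool.Agent.H13.CQ
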