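import Mathlib

/-!
Choice of the parameters for the sharp form of the lower bound: a constant loss `exp (-2 ρ)` per
block, for blocks of length of order `(log (1 / b)) ^ 2`.
-/

set_option autoImplicit false

namespace Pool.Agent.H13.CQ

lemma exists_sharp {p1 : ℝ} (hp0 : 0 < p1) (hp1 : p1 < 1) :
    ∃ c1 ρ : ℝ, 0 < c1 ∧ 0 < ρ ∧ ∀ b : ℝ, 0 < b → b ≤ 1 → ∃ (L : ℕ) (σ x : ℝ), 2 ≤ L ∧
      0 < σ ∧ σ < 1 ∧ 0 < x ∧ x ≤ 1 ∧ σ * x = ρ * (b / L) ∧
      (2 / x) ^ σ * (Real.exp (-√(L:ℝ)) ^ σ + p1 ^ (1 - σ)) ≤ Real.exp (-2 * ρ) ∧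
      c1 / (1 + Real.log (1 / b)) ^ 2 ≤ ρ / L := by
  obtain ⟨γ, hγ⟩ : ∃ γ : ℝ, γ = -Real.log p1 / 2 := ⟨_, rfl⟩
  have hγ0 : 0 < γ := by
    have := Real.log_neg hp0 hp1
    rw [hγ]; linarith
  have hlogp : Real.log p1 = -2 * γ := by rw [hγ]; ring
  obtain ⟨ρ, hρ⟩ : ∃ ρ : ℝ, ρ = min (γ / 4) 1 := ⟨_, rfl⟩
  have hρ0 : 0 < ρ := by rw [hρ]; positivity
  have hρ1 : ρ ≤ 1 := by rw [hρ]; exact min_le_right _ _
  have hργ : ρ ≤ γ / 4 := by rw [hρ]; exact min_le_left _ _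
  obtain ⟨q, hq⟩ : ∃ q : ℝ, q = Real.exp (-(γ / 2)) - Real.exp (-γ) := ⟨_, rfl⟩
  have hq0 : 0 < q := by
    have : Real.exp (-γ) < Real.exp (-(γ / 2)) := Real.exp_lt_exp.2 (by linarith)
    rw [hq]; linarith
  obtain ⟨T, hT⟩ : ∃ T : ℝ, T = max 1 (γ / 2 - Real.log q) := ⟨_, rfl⟩
  have hT1 : 1 ≤ T := by rw [hT]; exact le_max_left _ _
  have hTq : γ / 2 - Real.log q ≤ T := by rw [hT]; exact le_max_right _ _
  have hT0 : 0 < T := by linarith
  obtain ⟨D, hD⟩ : ∃ D : ℝ, D = |Real.log (2 * (T ^ 2 + 1) / ρ)| := ⟨_, rfl⟩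
  have hD0 : 0 ≤ D := by rw [hD]; exact abs_nonneg _
  have hDl : Real.log (2 * (T ^ 2 + 1) / ρ) ≤ D := by rw [hD]; exact le_abs_self _
  obtain ⟨s, hs⟩ : ∃ s : ℝ, s = min (1 / 2) (γ / 2 / (D + 4)) := ⟨_, rfl⟩
  have hs0 : 0 < s := by rw [hs]; positivity
  have hs1 : s ≤ 1 / 2 := by rw [hs]; exact min_le_left _ _
  have hs2 : s * (D + 4) ≤ γ / 2 := by
    have : s ≤ γ / 2 / (D + 4) := by rw [hs]; exact min_le_right _ _
    rwa [le_div_iff₀ (by positivity)] at this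
  refine ⟨ρ * s ^ 4 / (2 * T ^ 2), ρ, by positivity, hρ0, ?_⟩
  intro b hb hb1
  have hlogb : 0 ≤ Real.log (1 / b) := Real.log_nonneg (by rw [le_div_iff₀ hb]; linarith)
  obtain ⟨w, hw⟩ : ∃ w : ℝ, w = 1 + Real.log (1 / b) := ⟨_, rfl⟩
  have hw1 : 1 ≤ w := by rw [hw]; linarith
  have hw0 : 0 < w := by linarith
  rw [← hw]
  obtain ⟨σ, hσ⟩ : ∃ σ : ℝ, σ = s ^ 2 / w := ⟨_, rfl⟩
  have hσ0 : 0 < σ := by rw [hσ]; positivity
  have hss : s ^ 2 ≤ 1 / 4 := by nlinarith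
  have hσs : σ ≤ s ^ 2 := by rw [hσ]; exact div_le_self (by positivity) hw1
  have hσ4 : σ ≤ 1 / 4 := hσs.trans hss
  have hTσ : 1 ≤ T / σ := by
    rw [le_div_iff₀ hσ0]; linarith
  obtain ⟨L, hL⟩ : ∃ L : ℕ, L = ⌈(T / σ) ^ 2⌉₊ := ⟨_, rfl⟩
  have hLge : (T / σ) ^ 2 ≤ (L:ℝ) := by rw [hL]; exact Nat.le_ceil _
  have hLlt : (L:ℝ) < (T / σ) ^ 2 + 1 := by rw [hL]; exact Nat.ceil_lt_add_one (by positivity)
  have hTσ4 : 4 ≤ T / σ := by
    rw [le_div_iff₀ hσ0]; linarith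
  have hL2r : (2 : ℝ) ≤ L := by nlinarith
  have hL2 : 2 ≤ L := by exact_mod_cast hL2r
  have hL0 : (0 : ℝ) < L := by linarith
  have hsqrtL : T / σ ≤ √(L:ℝ) := Real.le_sqrt_of_sq_le hLge
  have hLσ : T ^ 2 / σ ≤ L * σ := by
    calc T ^ 2 / σ = (T / σ) ^ 2 * σ := by field_simp
      _ ≤ L * σ := mul_le_mul_of_nonneg_right hLge hσ0.le
  have hLσ1 : 1 ≤ L * σ := by
    refine le_trans ?_ hLσ
    rw [le_div_iff₀ hσ0]
    nlinarith
  obtain ⟨x, hx⟩ : ∃ x : ℝ, x = ρ * b / (L * σ) := ⟨_, rfl⟩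
  have hx0 : 0 < x := by rw [hx]; positivity
  have hx1 : x ≤ 1 := by
    rw [hx, div_le_one (by positivity)]
    nlinarith
  have hlog2x : Real.log (2 / x) ≤ D + 2 * w + 2 / s := by
    have h1 : 2 / x ≤ (2 * (T ^ 2 + 1) / ρ) * (w / s ^ 2 * (1 / b)) := by
      have h2 : 2 / x = 2 / ρ * (L * σ) * (1 / b) := by
        rw [hx]
        field_simp
      have h3 : (L:ℝ) * σ ≤ (T ^ 2 + 1) * (w / s ^ 2) := by
        have h4 : w / s ^ 2 = 1 / σ := by
          rw [hσ]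
          field_simp
        rw [h4]
        calc (L:ℝ) * σ ≤ ((T / σ) ^ 2 + 1) * σ := mul_le_mul_of_nonneg_right hLlt.le hσ0.le
          _ = T ^ 2 * (1 / σ) + σ := by field_simp
          _ ≤ T ^ 2 * (1 / σ) + 1 / σ := by
              have : σ ≤ 1 / σ := by
                rw [le_div_iff₀ hσ0]
                nlinarith
              linarith
          _ = (T ^ 2 + 1) * (1 / σ) := by ring
      rw [h2]
      calc 2 / ρ * (L * σ) * (1 / b) ≤ 2 / ρ * ((T ^ 2 + 1) * (w / s ^ 2)) * (1 / b) := by gcongr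
        _ = _ := by ring
    have h5 : Real.log (w / s ^ 2) ≤ w + 2 / s := by
      rw [Real.log_div hw0.ne' (by positivity), Real.log_pow]
      have h6 : Real.log w ≤ w := (Real.log_le_sub_one_of_pos hw0).trans (by linarith)
      have h7 : -Real.log s ≤ 1 / s := by
        rw [← Real.log_inv, one_div]
        exact (Real.log_le_sub_one_of_pos (by positivity)).trans (by linarith)
      push_cast
      have : 2 / s = 2 * (1 / s) := by ring
      rw [this]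
      linarith
    have h8 : Real.log (1 / b) ≤ w := by rw [hw]; linarith
    calc Real.log (2 / x) ≤ Real.log ((2 * (T ^ 2 + 1) / ρ) * (w / s ^ 2 * (1 / b))) :=
          Real.log_le_log (by positivity) h1
      _ = Real.log (2 * (T ^ 2 + 1) / ρ) + (Real.log (w / s ^ 2) + Real.log (1 / b)) := by
          rw [Real.log_mul (by positivity) (by positivity), Real.log_mul (by positivity) (by positivity)]
      _ ≤ D + 2 * w + 2 / s := by linarith
  have hσlog : Real.log (2 / x) * σ ≤ γ / 2 := by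
    calc Real.log (2 / x) * σ ≤ (D + 2 * w + 2 / s) * σ := mul_le_mul_of_nonneg_right hlog2x hσ0.le
      _ = D * σ + 2 * (w * σ) + 2 / s * σ := by ring
      _ ≤ D * s ^ 2 + 2 * s ^ 2 + 2 / s * s ^ 2 := by
          have h1 : w * σ = s ^ 2 := by rw [hσ]; field_simp
          rw [h1]
          gcongr
      _ = s * (s * D + 2 * s + 2) := by field_simp
      _ ≤ s * (D + 4) := by
          apply mul_le_mul_of_nonneg_left _ hs0.le
          nlinarith
      _ ≤ γ / 2 := hs2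
  refine ⟨L, σ, x, hL2, hσ0, by linarith, hx0, hx1, ?_, ?_, ?_⟩
  · rw [hx]
    field_simp
  · have e1 : (2 / x) ^ σ ≤ Real.exp (γ / 2) := by
      rw [Real.rpow_def_of_pos (by positivity)]
      exact Real.exp_le_exp.2 hσlog
    have e2 : Real.exp (-√(L:ℝ)) ^ σ ≤ Real.exp (-T) := by
      rw [← Real.exp_mul]
      apply Real.exp_le_exp.2
      rw [div_le_iff₀ hσ0] at hsqrtL
      linarith
    have e3 : p1 ^ (1 - σ) ≤ Real.exp (-(3 * γ / 2)) := by
      rw [Real.rpow_def_of_pos hp0, hlogp]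
      apply Real.exp_le_exp.2
      nlinarith
    calc (2 / x) ^ σ * (Real.exp (-√(L:ℝ)) ^ σ + p1 ^ (1 - σ)) ≤
        Real.exp (γ / 2) * (Real.exp (-T) + Real.exp (-(3 * γ / 2))) := by gcongr
      _ = Real.exp (γ / 2 - T) + Real.exp (-γ) := by
          rw [mul_add, ← Real.exp_add, ← Real.exp_add]
          congr 2
          ring
      _ ≤ q + Real.exp (-γ) := by
          have : Real.exp (γ / 2 - T) ≤ q := by
            rw [← Real.exp_log hq0]
            exact Real.exp_le_exp.2 (by linarith)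
          linarith
      _ = Real.exp (-(γ / 2)) := by rw [hq]; ring
      _ ≤ Real.exp (-2 * ρ) := by
          apply Real.exp_le_exp.2
          linarith
  · have h1 : (L : ℝ) ≤ 2 * T ^ 2 * w ^ 2 / s ^ 4 := by
      calc (L:ℝ) ≤ (T / σ) ^ 2 + 1 := hLlt.le
        _ ≤ (T / σ) ^ 2 + (T / σ) ^ 2 := by nlinarith
        _ = 2 * T ^ 2 * w ^ 2 / s ^ 4 := by
            rw [hσ]
            field_simp
            ring
    calc ρ * s ^ 4 / (2 * T ^ 2) / w ^ 2 = ρ / (2 * T ^ 2 * w ^ 2 / s ^ 4) := by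
          field_simp
      _ ≤ ρ / L := div_le_div_of_nonneg_left hρ0.le hL0 h1

end Pool.Agent.H13.CQ
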