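import Pool.Agent.H13.CQ.Block
import Pool.Agent.H13.CQ.Num

/-!
The lower bound `exp (c δ ^ (-1 / 2)) N` for the query complexity of the continuous random energy
model at distance `δ` from the algorithmic threshold (adapted from `Y873/CQ/Main` of the library,
where the exponent is `-1 / 3`).
-/

set_option autoImplicit false

namespace Pool.Agent.H13.CQ

open MeasureTheory ProbabilityTheory Set Filter Topology
open scoped ENNReal NNReal
open Pool.Agent.H654R3.Crem

universe u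

theorem crem_sharp (B : ℝ) (hB : 0 ≤ B) : ∃ c δ₀ : ℝ, 0 < c ∧ 0 < δ₀ ∧
    ∀ (a : ℝ → ℝ), (∀ t ∈ Icc (0:ℝ) 1, 0 ≤ a t) → (∀ t ∈ Icc (0:ℝ) 1, a t ≤ B) →
    (∀ᵐ t ∂(volume.restrict (Icc (0:ℝ) 1)), ContinuousWithinAt a (Icc (0:ℝ) 1) t) →
    (∫ t in (0:ℝ)..1, a t = 1) →
    ∀ δ : ℝ, 0 < δ → δ ≤ δ₀ → ∃ γ : ℝ, 0 < γ ∧ ∃ N₀ : ℕ, ∀ N : ℕ, N₀ ≤ N →
    ∀ (Ω : Type u) [MeasurableSpace Ω] (P : Measure Ω) [IsProbabilityMeasure P]
    (ξ : List Bool → Ω → ℝ) (U : ℕ → Ω → ℝ), (∀ v, Measurable (ξ v)) → (∀ n, Measurable (U n)) →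
    (iIndepFun (fun i : List Bool ⊕ ℕ => (Sum.elim ξ U i : Ω → ℝ)) P) →
    (∀ w : List Bool, w ≠ [] → w.length ≤ N →
      P.map (ξ w) = gaussianReal 0 (incVar a N w.length)) →
    ∀ (alg : Algorithm N),
    P {ω | ∃ t : ℕ, (t:ℝ) + 1 ≤ Real.exp (c * δ ^ (-(1 / 2) : ℝ)) * N ∧
      (query alg (X (fun v => ξ v ω)) (fun m => U m ω) t).length = N ∧
      (√(2 * Real.log 2) * (∫ t in (0:ℝ)..1, √(a t)) - δ) * N ≤
        X (fun v => ξ v ω) (query alg (X (fun v => ξ v ω)) (fun m => U m ω) t)} ≤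
      ENNReal.ofReal (Real.exp (-(γ * N))) := by
  have hlog4 : 0 < Real.log 4 := Real.log_pos (by norm_num)
  have hlog42 : Real.log 4 = 2 * Real.log 2 := by
    rw [show (4:ℝ) = 2 ^ 2 by norm_num, Real.log_pow]; norm_num
  rw [← hlog42]
  set cc := √(Real.log 4) with hcc
  have hcc0 : 0 < cc := Real.sqrt_pos.2 hlog4
  set H := B + 1 with hHdef
  have hH1 : 1 ≤ H := by linarith
  have hH0 : 0 < H := by linarith
  have hsH : 0 < √H := Real.sqrt_pos.2 hH0
  have hsHH : √H * √H = H := Real.mul_self_sqrt hH0.le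
  obtain ⟨p1, hp0, hp1, hp⟩ := exists_p1
  obtain ⟨c1, ρ, hc10, hρ0, hkeyq⟩ := exists_sharp hp0 hp1
  set K := 1 + Real.log (2 * H) with hK
  have hlogH : 0 ≤ Real.log (2 * H) := Real.log_nonneg (by linarith)
  have hK1 : 1 ≤ K := by linarith
  set c2 := c1 / (8 * cc * √H * K ^ 2) with hc2
  have hc20 : 0 < c2 := by rw [hc2]; positivity
  refine ⟨c2 ^ (1 / 2 : ℝ) / 2, c2 / 4, by positivity, by positivity, ?_⟩
  intro a ha0 hbd hcont hone δ hδ0 hδ1
  set I := ∫ t in (0:ℝ)..1, √(a t) with hI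
  have hint : IntervalIntegrable a volume 0 1 := by
    by_contra hcon
    rw [intervalIntegral.integral_undef hcon] at hone
    exact zero_ne_one hone
  -- the number of queries
  set z : ℝ := (c2 / δ) ^ (1 / 2 : ℝ) with hz
  have hz0 : 0 ≤ z := by rw [hz]; positivity
  have hz3 : z ^ 2 = c2 / δ := by
    rw [hz, ← Real.rpow_natCast, ← Real.rpow_mul (by positivity)]
    norm_num
  have hz2 : 2 ≤ z := by
    have h8 : (2:ℝ) ^ 2 ≤ z ^ 2 := by
      rw [hz3, le_div_iff₀ hδ0]; linarith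
    exact le_of_pow_le_pow_left₀ (by norm_num) hz0 h8
  have hexp : c2 ^ (1 / 2 : ℝ) / 2 * δ ^ (-(1 / 2) : ℝ) = z / 2 := by
    rw [hz, Real.div_rpow hc20.le hδ0.le, Real.rpow_neg hδ0.le]
    ring
  rw [hexp]
  set C' := Real.exp (z - 1) with hC'
  have hC1 : 1 ≤ C' := Real.one_le_exp (by linarith)
  have hCle : Real.exp (z / 2) ≤ C' := Real.exp_le_exp.2 (by linarith)
  set b := 1 / (2 * H * C') with hb
  have hb0 : 0 < b := by rw [hb]; positivity
  have hb1 : b ≤ 1 := by
    rw [hb, div_le_one (by positivity)]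
    nlinarith
  have hbH : b * (2 * H * C') = 1 := by rw [hb]; field_simp
  have hlogb : 1 + Real.log (1 / b) ≤ K * z := by
    have h1 : 1 / b = 2 * H * C' := by rw [hb, one_div_one_div]
    rw [h1, Real.log_mul (by positivity) (by positivity), hC', Real.log_exp, hK]
    nlinarith
  have hlogb0 : 0 < 1 + Real.log (1 / b) := by
    have : 0 ≤ Real.log (1 / b) := Real.log_nonneg (by rw [le_div_iff₀ hb0]; linarith)
    linarith
  obtain ⟨L, σ, x, hL2, hσ0, hσ1, hx0, hx1, hσx, hkey, hσL⟩ := hkeyq b hb0 hb1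
  have hL0 : (0:ℝ) < L := by exact_mod_cast (by omega : 0 < L)
  have hs0 : 0 < 1 - σ := by linarith
  set κ := ρ / ((1 - σ) * cc * L) with hκ
  have hκ0 : 0 < κ := by rw [hκ]; positivity
  have hκδ : 8 * √H * δ ≤ κ := by
    have h1 : c1 / (K * z) ^ 2 ≤ ρ / L := by
      refine le_trans ?_ hσL
      apply div_le_div_of_nonneg_left hc10.le (by positivity)
      exact pow_le_pow_left₀ hlogb0.le hlogb 2
    have h2 : ρ / L / cc ≤ κ := by
      rw [hκ, div_div]
      apply div_le_div_of_nonneg_left hρ0.le (by positivity)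
      calc (1 - σ) * cc * L = (1 - σ) * (L * cc) := by ring
        _ ≤ 1 * (L * cc) := by gcongr; linarith
        _ = L * cc := one_mul _
    have h3 : 8 * √H * δ = c1 / (K * z) ^ 2 / cc := by
      rw [mul_pow, hz3, hc2]
      field_simp
    rw [h3]
    refine le_trans ?_ h2
    gcongr
  set ε := κ / (8 * cc * √H) with hε
  have hε0 : 0 < ε := by rw [hε]; positivity
  have hcε : cc * ε = κ / (8 * √H) := by rw [hε]; field_simp
  obtain ⟨M, h, hM0, hpos, hH, hwin, hJ⟩ := exists_steps ha0 hB hbd hcont hε0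
  have hM0' : (0:ℝ) < M := by exact_mod_cast hM0
  rw [← hI] at hJ
  -- eventually the numeric inequality holds
  have hev1 : ∀ᶠ N : ℕ in atTop, 2 * cc * L * M * (I + ε) / N < 1 / 4 * κ / √H := by
    have h1 : Tendsto (fun N : ℕ => 2 * cc * L * M * (I + ε) / N) atTop (𝓝 0) :=
      Tendsto.div_atTop tendsto_const_nhds tendsto_natCast_atTop_atTop
    exact h1.eventually (gt_mem_nhds (by positivity))
  set K1 := C' * (2 / x) * Real.exp (2 * ρ) * Real.exp ρ with hK1d
  set α := ρ / (L * M) with hα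
  have hα0 : 0 < α := by rw [hα]; positivity
  have hev2 : ∀ᶠ N : ℕ in atTop, (M * K1) * ((N:ℝ) * Real.exp (-(α / 2 * N))) < 1 :=
    (tendsto_bound (K := M * K1) (α := α / 2) (by positivity)).eventually
      (gt_mem_nhds one_pos)
  obtain ⟨N₀, hN₀⟩ := eventually_atTop.1 (hev1.and (hev2.and
    ((eventually_ge_atTop (L * M)).and (eventually_gt_atTop 0))))
  refine ⟨α / 2, by positivity, N₀, ?_⟩
  intro N hN Ω _ P _ ξ U hξ hU hind hlaw alg
  obtain ⟨hN1, hNe, hN2, hN3⟩ := hN₀ N hN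
  have hN' : (0:ℝ) < N := by exact_mod_cast hN3
  set n := ⌊C' * N⌋₊ with hn
  have hnle : (n:ℝ) ≤ C' * N := Nat.floor_le (by positivity)
  have hy : cc * ((N + 2 * L * M) * (I + ε)) + κ * (b * √H * n - N / √H)
      < (cc * I - δ) * N := by
    have h1 : b * √H * n ≤ N / (2 * √H) := by
      rw [le_div_iff₀ (by positivity)]
      calc b * √H * n * (2 * √H) = b * (2 * (√H * √H)) * n := by ring
        _ = b * (2 * H) * n := by rw [hsHH]
        _ ≤ b * (2 * H) * (C' * N) := by gcongr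
        _ = (b * (2 * H * C')) * N := by ring
        _ = N := by rw [hbH, one_mul]
    have h2 : κ * (b * √H * n - N / √H) ≤ κ * (N / (2 * √H) - N / √H) := by gcongr
    have h3 : κ * (N / (2 * √H) - N / √H) = - (κ * N / (2 * √H)) := by
      field_simp; ring
    have h4 : 2 * cc * L * M * (I + ε) < 1 / 4 * κ / √H * N := by
      have h5 := mul_lt_mul_of_pos_right hN1 hN'
      have h6 : (2 * cc * L * M * (I + ε) / N) * N = 2 * cc * L * M * (I + ε) := by
        field_simp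
      rwa [h6] at h5
    have h7 : cc * ((N + 2 * L * M) * (I + ε)) = cc * I * N + (cc * ε) * N +
        2 * cc * L * M * (I + ε) := by ring
    rw [h7, hcε]
    have h9 : δ * N ≤ κ / (8 * √H) * N := by
      apply mul_le_mul_of_nonneg_right _ hN'.le
      rw [le_div_iff₀ (by positivity)]
      linarith
    have h8 : κ / (8 * √H) * N + κ / (8 * √H) * N + 1 / 4 * κ / √H * N = κ * N / (2 * √H) := by
      field_simp; ring
    linarith
  have hmain := fixedN_sharp alg n hξ hU hind hint hone hlaw hL2 hM0 hN2 hp0 hp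
    hpos hH hwin hJ hb0 hx0 hx1 hσ0 hσ1 hρ0 hσx hkey hy
  calc _ ≤ P {ω | ∃ t < n, (query alg (X (fun v => ξ v ω)) (fun m => U m ω) t).length = N
        ∧ (cc * I - δ) * N ≤
        X (fun v => ξ v ω) (query alg (X (fun v => ξ v ω)) (fun m => U m ω) t)} := by
        apply measure_mono
        rintro ω ⟨t, ht, h1, h2⟩
        refine ⟨t, ?_, h1, h2⟩
        have : ((t + 1 : ℕ) : ℝ) ≤ C' * N := by
          push_cast
          refine ht.trans ?_
          gcongr
        exact Nat.le_floor this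
    _ ≤ _ := hmain
    _ ≤ ENNReal.ofReal ((M * K1) * ((N:ℝ) * Real.exp (-(α * N)))) := by
      rw [mul_assoc (M:ℝ) K1, ENNReal.ofReal_mul (Nat.cast_nonneg M), ENNReal.ofReal_natCast]
      refine mul_le_mul' le_rfl (ENNReal.ofReal_le_ofReal ?_)
      calc (n:ℝ) * (2 / x) * Real.exp (2 * ρ) * Real.exp (-(ρ * ((N:ℝ) / (L * M) - 1)))
          ≤ (C' * N) * (2 / x) * Real.exp (2 * ρ) *
            Real.exp (-(ρ * ((N:ℝ) / (L * M) - 1))) := by gcongr
        _ = _ := by
          have : Real.exp (-(ρ * ((N:ℝ) / (L * M) - 1))) =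
              Real.exp ρ * Real.exp (-(α * N)) := by
            rw [← Real.exp_add]; congr 1; rw [hα]; ring
          rw [this, hK1d]; ring
    _ ≤ _ := by
      apply ENNReal.ofReal_le_ofReal
      have e1 : Real.exp (-(α * N)) = Real.exp (-(α / 2 * N)) * Real.exp (-(α / 2 * N)) := by
        rw [← Real.exp_add]; congr 1; ring
      have e2 : (M * K1) * ((N:ℝ) * Real.exp (-(α * N)))
          = ((M * K1) * ((N:ℝ) * Real.exp (-(α / 2 * N)))) * Real.exp (-(α / 2 * N)) := by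
        rw [e1]; ring
      rw [e2]
      calc _ ≤ 1 * Real.exp (-(α / 2 * N)) := by gcongr
        _ = _ := one_mul _

end Pool.Agent.H13.CQ
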